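import Pool.Agent.H419R2.A3

/-! Class number one for the radicands `μ² ± 2`: the algebraic side (discriminant `4 (μ² ± 2)`). -/

set_option autoImplicit false

namespace Pool.Agent.Q20.BM

open QuadraticAlgebra Module H419R2

/-- `∑_{b ∣ n} J b` -/
def rj (J : ℕ → ℤ) (n : ℕ) : ℤ := ∑ b ∈ n.divisors, J b

theorem rj_one {J : ℕ → ℤ} (h1 : J 1 = 1) : rj J 1 = 1 := by
  simp [rj, h1]

theorem rj_rec {J : ℕ → ℤ} (hJ : ∀ a b, J (a * b) = J a * J b) {l n : ℕ} (hl : l.Prime)
    (hn : n ≠ 0) :
    rj J (l * n) = (1 + J l) * rj J n - J l * (if l ∣ n then rj J (n / l) else 0) := by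
  unfold rj
  rw [divisors_prime_mul hl hn]
  have h1 := Finset.sum_union_inter (s₁ := n.divisors)
    (s₂ := n.divisors.image (fun b => l * b)) (f := fun b : ℕ => J b)
  have himg : ∀ s : Finset ℕ, ∑ b ∈ s.image (fun b => l * b), J b
      = J l * ∑ b ∈ s, J b := by
    intro s
    rw [Finset.sum_image (by
      intro a _ b _ h
      exact Nat.eq_of_mul_eq_mul_left hl.pos h), Finset.mul_sum]
    apply Finset.sum_congr rfl
    intro b _
    rw [hJ]
  have hinter : ∑ b ∈ n.divisors ∩ n.divisors.image (fun b => l * b), J b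
      = J l * (if l ∣ n then ∑ b ∈ (n / l).divisors, J b else 0) := by
    split_ifs with h
    · obtain ⟨k, rfl⟩ := h
      rw [Nat.mul_div_cancel_left _ hl.pos, ← himg]
      apply Finset.sum_congr _ (fun _ _ => rfl)
      have hk : k ≠ 0 := by rintro rfl; simp at hn
      ext b
      simp only [Nat.mem_divisors, Finset.mem_inter, Finset.mem_image]
      constructor
      · rintro ⟨⟨h1, _⟩, ⟨c, ⟨h2, _⟩, rfl⟩⟩
        exact ⟨c, ⟨Nat.dvd_of_mul_dvd_mul_left hl.pos h1, hk⟩, rfl⟩
      · rintro ⟨c, ⟨h2, _⟩, rfl⟩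
        exact ⟨⟨Nat.mul_dvd_mul_left l h2, hn⟩, ⟨c, ⟨h2.mul_left l, hn⟩, rfl⟩⟩
    · rw [mul_zero]
      apply Finset.sum_eq_zero
      intro b hb
      exfalso
      simp only [Nat.mem_divisors, Finset.mem_inter, Finset.mem_image] at hb
      obtain ⟨⟨h1, _⟩, ⟨c, _, rfl⟩⟩ := hb
      exact h ((Dvd.intro _ rfl).trans h1)
  rw [himg, hinter] at h1
  linarith

/-- The Kronecker symbol `(4 d / b)` -/
def kr (d : ℤ) (b : ℕ) : ℤ := if b % 2 = 0 then 0 else jacobiSym d b

theorem kr_zero (d : ℤ) : kr d 0 = 0 := by simp [kr]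

theorem kr_one (d : ℤ) : kr d 1 = 1 := by simp [kr]

theorem kr_mul (d : ℤ) (a b : ℕ) : kr d (a * b) = kr d a * kr d b := by
  unfold kr
  rcases Nat.mod_two_eq_zero_or_one a with ha | ha <;>
    rcases Nat.mod_two_eq_zero_or_one b with hb | hb
  · simp [Nat.mul_mod, ha, hb]
  · simp [Nat.mul_mod, ha, hb]
  · simp [Nat.mul_mod, ha, hb]
  · have h : a * b % 2 = 1 := by simp [Nat.mul_mod, ha, hb]
    rw [if_neg (by omega), if_neg (by omega), if_neg (by omega)]
    have ha' : NeZero a := ⟨by rintro rfl; simp at ha⟩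
    have hb' : NeZero b := ⟨by rintro rfl; simp at hb⟩
    exact jacobiSym.mul_right' d (NeZero.ne a) (NeZero.ne b)

theorem kr_abs (d : ℤ) (a : ℕ) : |(kr d a : ℝ)| ≤ 1 := by
  unfold kr
  split_ifs
  · simp
  · rcases jacobiSym.trichotomy d a with h | h | h <;> rw [h] <;> simp

theorem kr_per (d : ℕ) (a : ℕ) : kr d (a + 4 * d) = kr d a := by
  unfold kr
  have h : (a + 4 * d) % 2 = a % 2 := by omega
  rw [h]
  split_ifs with h1
  · rfl
  · have hodd : Odd a := Nat.odd_iff.mpr (by omega)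
    have hodd' : Odd (a + 4 * d) := Nat.odd_iff.mpr (by omega)
    rw [jacobiSym.mod_right (d : ℤ) hodd', jacobiSym.mod_right (d : ℤ) hodd]
    simp

section

variable {R m : ℤ} [IsDomain (QA R m)] [IsPrincipalIdealRing (QA R m)]

theorem cnt_rec {D d : ℕ} (hD : (D : ℤ) = m ^ 2 + 4 * R) (hDd : D = 4 * d)
    (hm : m % 2 = 0) (hR : R % 2 = 0)
    {l : ℕ} (hl : l.Prime) (n : ℕ) :
    (cnt R m (l * n) : ℤ) = (1 + kr d l) * cnt R m n
      - kr d l * (if l ∣ n then (cnt R m (n / l) : ℤ) else 0) := by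
  by_cases h2 : l = 2
  · subst h2
    have hj : kr d 2 = 0 := by simp [kr]
    obtain ⟨p, hp⟩ := exists_norm_prime (R := R) (m := m) hl (w0 := 0) (by
      obtain ⟨k, hk⟩ : ∃ k, R = 2 * k := ⟨R / 2, by omega⟩
      refine ⟨-k, ?_⟩
      rw [hk]; push_cast; ring)
    have hlD : ((2 : ℕ) : ℤ) ∣ (D : ℤ) := by
      rw [hDd]; push_cast; exact ⟨2 * d, by ring⟩
    rw [hj, cnt_ramified hl hp (span_eq_of_dvd hp hD hl hlD)]
    simp
  · have hodd : Odd l := hl.odd_of_ne_two h2
    haveI := Fact.mk hl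
    have h20 : (2 : ZMod l) ≠ 0 := by
      intro h3
      have : ((2 : ℕ) : ZMod l) = 0 := by exact_mod_cast h3
      rw [ZMod.natCast_eq_zero_iff] at this
      exact h2 ((Nat.prime_dvd_prime_iff_eq hl Nat.prime_two).mp this)
    have hj : kr d l = legendreSym l (D : ℤ) := by
      unfold kr
      rw [if_neg (by have := Nat.odd_iff.mp hodd; omega)]
      rw [← jacobiSym.legendreSym.to_jacobiSym, hDd]
      push_cast
      rw [legendreSym.mul]
      have h4 : legendreSym l 4 = 1 := by
        rw [legendreSym.eq_one_iff]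
        · exact ⟨2, by push_cast; norm_num⟩
        · push_cast
          have : (4 : ZMod l) = 2 * 2 := by norm_num
          rw [this]
          exact mul_ne_zero h20 h20
      rw [h4, one_mul]
    rw [hj]
    by_cases hz : ((D : ℤ) : ZMod l) = 0
    · rw [(legendreSym.eq_zero_iff l (D : ℤ)).mpr hz]
      obtain ⟨w0, hw0⟩ := root_of_square (R := R) (m := m) hl h2 hD (by rw [hz]; exact ⟨0, by simp⟩)
      obtain ⟨p, hp⟩ := exists_norm_prime hl hw0
      have hlD : (l : ℤ) ∣ (D : ℤ) := (ZMod.intCast_zmod_eq_zero_iff_dvd _ l).mp hz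
      rw [cnt_ramified hl hp (span_eq_of_dvd hp hD hl hlD)]
      simp
    · by_cases hs : IsSquare ((D : ℤ) : ZMod l)
      · rw [(legendreSym.eq_one_iff l hz).mpr hs]
        obtain ⟨w0, hw0⟩ := root_of_square (R := R) (m := m) hl h2 hD hs
        obtain ⟨p, hp⟩ := exists_norm_prime hl hw0
        have hlD : ¬ (l : ℤ) ∣ (D : ℤ) := by
          intro h
          exact hz ((ZMod.intCast_zmod_eq_zero_iff_dvd _ l).mpr h)
        have h3 := cnt_split hl hp (span_ne_of_not_dvd hp hD hl h2 hlD) n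
        split_ifs at h3 ⊢ <;> push_cast [← h3] <;> linarith
      · rw [(legendreSym.eq_neg_one_iff l).mpr hs]
        rw [cnt_inert hl (inert_of_not_square hl h2 hD hs)]
        split_ifs <;> simp

theorem cnt_eq_rj {D d : ℕ} (hD : (D : ℤ) = m ^ 2 + 4 * R) (hDd : D = 4 * d)
    (hm : m % 2 = 0) (hR : R % 2 = 0)
    (n : ℕ) (hn : n ≠ 0) : (cnt R m n : ℤ) = rj (kr d) n := by
  induction n using Nat.strong_induction_on with
  | _ n ih =>
    by_cases h1 : n = 1
    · subst h1
      rw [cnt_one, rj_one (kr_one _)]; simp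
    · obtain ⟨l, hl, k, hk⟩ := Nat.exists_prime_and_dvd h1
      have hk0 : k ≠ 0 := by rintro rfl; simp at hk; exact hn hk
      have hkn : k < n := by
        rw [hk]
        have := hl.two_le
        have : 0 < k := Nat.pos_of_ne_zero hk0
        nlinarith
      rw [hk, cnt_rec hD hDd hm hR hl, rj_rec (kr_mul _) hl hk0, ih k hkn hk0]
      congr 2
      split_ifs with h
      · obtain ⟨j, hj⟩ := h
        have hj0 : j ≠ 0 := by rintro rfl; simp at hj; exact hk0 hj
        have : k / l = j := by rw [hj]; exact Nat.mul_div_cancel_left _ hl.pos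
        rw [this]
        apply ih j _ hj0
        have : j ≤ k := by rw [hj]; exact Nat.le_mul_of_pos_left _ hl.pos
        omega
      · rfl

end

section field

variable {K : Type*} [Field K] [NumberField K]

theorem integral_coords {d : ℤ} (hd4 : d % 4 = 2 ∨ d % 4 = 3)
    (hsf : Squarefree d) (hd1 : 1 < d) (hK : finrank ℚ K = 2) {x : K}
    (hx : x ^ 2 = (d : K)) {y : K} (hy : IsIntegral ℤ y) :
    ∃ u w : ℤ, y = (u : K) + (w : K) * x := by
  have hns := not_sq_of_squarefree hsf hd1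
  obtain ⟨p, q, rfl⟩ := exists_coords hns hK hx y
  by_cases hq : q = 0
  · subst hq
    simp only [Rat.cast_zero, zero_mul, add_zero] at hy
    have hp : IsIntegral ℤ p := by
      have : IsIntegral ℤ (algebraMap ℚ K p) := by simpa using hy
      exact (isIntegral_algebraMap_iff (algebraMap ℚ K).injective).mp this
    obtain ⟨n, hn⟩ := IsIntegrallyClosed.isIntegral_iff.mp hp
    have hn' : (n : ℚ) = p := by simpa using hn
    refine ⟨n, 0, ?_⟩
    rw [← hn']
    push_cast
    ring
  · obtain ⟨⟨a, ha⟩, ⟨b, hb⟩⟩ := two_int_of_integral hns hx hq hy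
    have h4 : (d : ℚ) * (2 * q) ^ 2 = ((a ^ 2 - 4 * b : ℤ) : ℚ) := by
      push_cast
      rw [ha, hb]; ring
    obtain ⟨c, hc⟩ := int_of_squarefree_mul_sq hsf h4
    have h5 : d * c ^ 2 = a ^ 2 - 4 * b := by
      rw [← hc] at h4
      exact_mod_cast h4
    have hpar : a % 2 = 0 ∧ c % 2 = 0 := by
      have h6 : (d * c ^ 2) % 4 = a ^ 2 % 4 := by rw [h5]; omega
      have ha2 : a % 4 = 0 ∨ a % 4 = 1 ∨ a % 4 = 2 ∨ a % 4 = 3 := by omega
      have hc2 : c % 4 = 0 ∨ c % 4 = 1 ∨ c % 4 = 2 ∨ c % 4 = 3 := by omega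
      have e1 : a ^ 2 % 4 = (a % 4) * (a % 4) % 4 := by rw [pow_two, Int.mul_emod]
      have e2 : (d * c ^ 2) % 4 = (d % 4) * ((c % 4) * (c % 4) % 4) % 4 := by
        rw [Int.mul_emod, pow_two, Int.mul_emod c c]
      rw [e1, e2] at h6
      rcases hd4 with hd | hd <;> rcases ha2 with h | h | h | h <;>
        rcases hc2 with h' | h' | h' | h' <;> rw [hd, h, h'] at h6 <;>
        first
        | (exfalso; revert h6; decide)
        | (constructor <;> omega)
    obtain ⟨u, hu⟩ : ∃ u, a = 2 * u := ⟨a / 2, by omega⟩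
    obtain ⟨w, hw⟩ : ∃ w, c = 2 * w := ⟨c / 2, by omega⟩
    refine ⟨u, w, ?_⟩
    have hp : p = u := by
      have : (2 : ℚ) * p = 2 * u := by rw [← ha, hu]; push_cast; ring
      linarith
    have hq' : q = w := by
      have : (2 : ℚ) * q = 2 * w := by rw [← hc, hw]; push_cast; ring
      linarith
    rw [hp, hq']
    push_cast
    ring

theorem pid_of_classNumber_one {m R d : ℤ} (hd4 : d % 4 = 2 ∨ d % 4 = 3)
    (hm : ∃ μ, m = 2 * μ ∧ d = μ ^ 2 + R)
    (hsf : Squarefree d) (hd1 : 1 < d) (hK : finrank ℚ K = 2) {x : K}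
    (hx : x ^ 2 = (d : K)) (hcl : NumberField.classNumber K = 1) :
    IsPrincipalIdealRing (QA R m) := by
  obtain ⟨μ, rfl, hdm⟩ := hm
  have hns := not_sq_of_squarefree hsf hd1
  have hx2 : (2 * x) ^ 2 = ((4 * d : ℤ) : K) := by push_cast; linear_combination 4 * hx
  have hDm : 4 * d = (2 * μ) ^ 2 + 4 * R := by rw [hdm]; ring
  have h2 : (2 : K) ≠ 0 := by norm_num
  have hxr : ∀ p q : ℤ, (p : K) + (q : K) * ((((2 * μ : ℤ) : K) + 2 * x) / 2) = 0 →
      p = 0 ∧ q = 0 := by
    intro p q h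
    by_cases hq : q = 0
    · subst hq
      simp at h
      exact ⟨h, rfl⟩
    · exfalso
      apply hns
      refine ⟨-(p + q * μ) / q, ?_⟩
      have hq' : (q : K) ≠ 0 := by exact_mod_cast hq
      have hxe : x = ((-(p + q * μ) / q : ℚ) : K) := by
        push_cast
        rw [eq_div_iff hq']
        push_cast at h
        field_simp at h
        linear_combination h
      have h3 : (((-(p + q * μ) / q) ^ 2 : ℚ) : K) = ((d : ℚ) : K) := by
        push_cast
        rw [hxe] at hx
        push_cast at hx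
        exact hx
      exact_mod_cast h3
  letI : Algebra (QA R (2 * μ)) K := (emb hDm hx2).toRingHom.toAlgebra
  have hmap : ∀ z : QA R (2 * μ), algebraMap (QA R (2 * μ)) K z =
      (z.re : K) + (z.im : K) * ((((2 * μ : ℤ) : K) + 2 * x) / 2) := fun z => emb_apply hDm hx2 z
  haveI : IsIntegralClosure (QA R (2 * μ)) ℤ K := by
    refine ⟨?_, ?_⟩
    · intro z w hzw
      rw [hmap, hmap] at hzw
      have := hxr (z.re - w.re) (z.im - w.im) (by push_cast at hzw ⊢; linear_combination hzw)
      ext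
      · linarith [this.1]
      · linarith [this.2]
    · intro y
      constructor
      · intro hy
        obtain ⟨u, w, h⟩ := integral_coords hd4 hsf hd1 hK hx hy
        refine ⟨⟨u - w * μ, w⟩, ?_⟩
        rw [hmap, h]
        push_cast
        field_simp
        ring
      · rintro ⟨z, rfl⟩
        have : IsIntegral ℤ z := by
          refine ⟨Polynomial.X ^ 2 - Polynomial.C (QuadraticAlgebra.trace z) * Polynomial.X
            + Polynomial.C (QuadraticAlgebra.norm z), ?_, ?_⟩
          · monicity!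
          · rw [← Polynomial.aeval_def]
            simp only [map_add, map_sub, map_pow, map_mul, Polynomial.aeval_X, Polynomial.aeval_C]
            have := QuadraticAlgebra.sq_sub_trace_smul_add_norm_eq_zero z
            simpa [Algebra.smul_def] using this
        exact this.map (emb hDm hx2)
  haveI : IsScalarTower ℤ (QA R (2 * μ)) K := IsScalarTower.of_algebraMap_eq (fun n => by simp)
  have e : NumberField.RingOfIntegers K ≃ₐ[ℤ] QA R (2 * μ) :=
    IsIntegralClosure.equiv ℤ (NumberField.RingOfIntegers K) K (QA R (2 * μ))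
  rw [NumberField.classNumber_eq_one_iff] at hcl
  exact IsPrincipalIdealRing.of_surjective e.toRingEquiv e.surjective

end field

end Pool.Agent.Q20.BM
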