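import Pool.Agent.H419R2.D2
import Pool.Agent.H419R2.E3
import Pool.Agent.Q20.BM.C

/-! Class number one gives the relations, for the discriminants `4 (μ² ± 2)`. -/

set_option autoImplicit false

namespace Pool.Agent.Q20.BM

open Finset H419R2

/-- consequence of class number one -/
structure GoodE (R K : ℤ) (D d : ℕ) : Prop where
  hD : (D : ℤ) = (R * K) ^ 2 + 4 * R
  hD1 : 1 < D
  rel : ∀ (q : ℕ) [NeZero q], q.Coprime D → ∀ f : ZMod q → ℤ, (∀ x, f (-x) = -f x) →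
    (D : ℤ) * ∑ x : ZMod q, ∑ y : ZMod q, f (x ^ 2 + (R : ZMod q) * (K : ZMod q) * (x * y)
      - (R : ZMod q) * y ^ 2) * wt K (R * K) x y =
    6 * ∑ l ∈ range (q * D), ∑ a ∈ range q, (l : ℤ) * a * kr d l * f ((a * l : ℕ))
  inert : ∀ l : ℕ, l.Prime → l ≠ 2 → 2 * (l : ℤ) ≤ R * K → l ≠ R.natAbs →
    ¬ IsSquare (((D : ℤ)) : ZMod l)

theorem rel_of {q D d : ℕ} [NeZero q] (hD : 0 < D) {R K : ℤ} {f : ZMod q → ℤ}
    (h : (∑ l ∈ range (q * D), ∑ a ∈ range q, (l : ℝ) * a * kr d l *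
      ((f ((a * l : ℕ)) : ℤ) : ℝ)) / (q * (q * D)) =
      SS (fun x y => ((f (x ^ 2 + (R : ZMod q) * (K : ZMod q) * (x * y)
      - (R : ZMod q) * y ^ 2) : ℤ) : ℝ) *
          (4 * (B1 x * B1 y) - K * B2 x + (R * K : ℤ) * B2 y))) :
    (D : ℤ) * ∑ x : ZMod q, ∑ y : ZMod q, f (x ^ 2 + (R : ZMod q) * (K : ZMod q) * (x * y)
      - (R : ZMod q) * y ^ 2) * wt K (R * K) x y =
    6 * ∑ l ∈ range (q * D), ∑ a ∈ range q, (l : ℤ) * a * kr d l * f ((a * l : ℕ)) := by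
  have hq := qpos (q := q)
  have hD' : (0 : ℝ) < D := by exact_mod_cast hD
  have e1 : ((∑ x : ZMod q, ∑ y : ZMod q, f (x ^ 2 + (R : ZMod q) * (K : ZMod q) * (x * y)
      - (R : ZMod q) * y ^ 2) * wt K (R * K) x y : ℤ) : ℝ) =
      6 * q ^ 2 * SS (fun x y => ((f (x ^ 2 + (R : ZMod q) * (K : ZMod q) * (x * y)
      - (R : ZMod q) * y ^ 2) : ℤ) : ℝ) *
          (4 * (B1 x * B1 y) - K * B2 x + (R * K : ℤ) * B2 y)) := by
    rw [← SS_mul]
    unfold SS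
    rw [Int.cast_sum]
    apply Finset.sum_congr rfl
    intro x _
    rw [Int.cast_sum]
    apply Finset.sum_congr rfl
    intro y _
    rw [Int.cast_mul, wt_real]
    ring
  have e2 : ((∑ l ∈ range (q * D), ∑ a ∈ range q, (l : ℤ) * a * kr d l *
      f ((a * l : ℕ)) : ℤ) : ℝ) = ∑ l ∈ range (q * D), ∑ a ∈ range q, (l : ℝ) * a *
      kr d l * ((f ((a * l : ℕ)) : ℤ) : ℝ) := by
    push_cast
    rfl
  have e3 : (((D : ℤ) * ∑ x : ZMod q, ∑ y : ZMod q, f (x ^ 2 + (R : ZMod q) * (K : ZMod q) *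
      (x * y) - (R : ZMod q) * y ^ 2) * wt K (R * K) x y : ℤ) : ℝ) =
      ((6 * ∑ l ∈ range (q * D), ∑ a ∈ range q, (l : ℤ) * a * kr d l *
        f ((a * l : ℕ)) : ℤ) : ℝ) := by
    rw [Int.cast_mul, e1, ← h, Int.cast_mul, e2]
    push_cast
    field_simp
  exact_mod_cast e3

theorem kr_eq {D d : ℕ} (hDd : D = 4 * d) {l : ℕ} [hF : Fact l.Prime] (h2 : l ≠ 2) :
    kr d l = legendreSym l (D : ℤ) := by
  have hl := hF.out
  have hodd : Odd l := hl.odd_of_ne_two h2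
  have h20 : (2 : ZMod l) ≠ 0 := by
    intro h3
    have : ((2 : ℕ) : ZMod l) = 0 := by exact_mod_cast h3
    rw [ZMod.natCast_eq_zero_iff] at this
    exact h2 ((Nat.prime_dvd_prime_iff_eq hl Nat.prime_two).mp this)
  unfold kr
  rw [if_neg (by have := Nat.odd_iff.mp hodd; omega)]
  rw [← jacobiSym.legendreSym.to_jacobiSym, hDd]
  push_cast
  rw [legendreSym.mul]
  have h4 : legendreSym l 4 = 1 := by
    rw [legendreSym.eq_one_iff]
    · exact ⟨2, by push_cast; norm_num⟩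
    · push_cast
      have : (4 : ZMod l) = 2 * 2 := by norm_num
      rw [this]
      exact mul_ne_zero h20 h20
  rw [h4, one_mul]

theorem chr_of {D d : ℕ} (hDd : D = 4 * d) {l : ℕ} (hl : l.Prime) (h2 : l ≠ 2)
    (h : ¬ IsSquare (((D : ℤ)) : ZMod l)) : Chr D (kr d) := by
  have hF := Fact.mk hl
  refine ⟨kr_zero _, kr_mul _, kr_abs _, ?_, l, ?_, ?_⟩
  · intro a; rw [hDd]; exact kr_per d a
  · rw [hl.coprime_iff_not_dvd]
    intro hd
    apply h
    have : ((D : ℤ) : ZMod l) = 0 :=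
      (ZMod.intCast_zmod_eq_zero_iff_dvd _ l).mpr (by exact_mod_cast hd)
    rw [this]
    exact ⟨0, by ring⟩
  · rw [kr_eq hDd h2]
    exact (legendreSym.eq_neg_one_iff l).mpr h

theorem inertP {r k : ℕ} (hr : 2 ≤ r) (hk : 1 ≤ k) {D : ℕ}
    (hDm : (D : ℤ) = ((r * k : ℕ) : ℤ) ^ 2 + 4 * (r : ℤ))
    [IsDomain (QA (r : ℤ) ((r * k : ℕ) : ℤ))]
    [IsPrincipalIdealRing (QA (r : ℤ) ((r * k : ℕ) : ℤ))]
    (l : ℕ) (hl : l.Prime) (hl2 : l ≠ 2) (hlm : 2 * (l : ℤ) ≤ r * k) (hlr : l ≠ r) :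
    ¬ IsSquare (((D : ℤ)) : ZMod l) := by
  intro hsq
  obtain ⟨w0, hw0⟩ := root_of_square hl hl2 hDm hsq
  obtain ⟨z, hz⟩ := exists_norm_prime hl hw0
  have hz0 : z ≠ 0 := by
    rintro rfl
    have := hl.pos
    simp at hz
    omega
  obtain ⟨z', h1, h2⟩ := (fdP hr hk).surj hz0
  obtain ⟨p, rfl⟩ := (genP_range hr hk z').mp h1
  have h3 := congrArg Ideal.absNorm h2
  rw [absNorm_span, absNorm_span, hz] at h3
  have hlm' : 2 * l ≤ r * k := by exact_mod_cast hlm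
  exact small_normP hr hk p hl hlm' hlr h3

theorem inertM {r k : ℕ} (hr : 2 ≤ r) (hk : 3 ≤ k) (h7 : 7 ≤ r * k) {D : ℕ}
    (hDm : (D : ℤ) = ((r * k : ℕ) : ℤ) ^ 2 + 4 * (-(r : ℤ)))
    [IsDomain (QA (-(r : ℤ)) ((r * k : ℕ) : ℤ))]
    [IsPrincipalIdealRing (QA (-(r : ℤ)) ((r * k : ℕ) : ℤ))]
    (l : ℕ) (hl : l.Prime) (hl2 : l ≠ 2) (hlm : 2 * (l : ℤ) ≤ r * k) (hlr : l ≠ r) :
    ¬ IsSquare (((D : ℤ)) : ZMod l) := by
  intro hsq
  obtain ⟨w0, hw0⟩ := root_of_square hl hl2 hDm hsq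
  obtain ⟨z, hz⟩ := exists_norm_prime hl hw0
  have hz0 : z ≠ 0 := by
    rintro rfl
    have := hl.pos
    simp at hz
    omega
  obtain ⟨z', h1, h2⟩ := (fdM hr hk).surj hz0
  obtain ⟨p, rfl⟩ := (genM_range hr hk z').mp h1
  have h3 := congrArg Ideal.absNorm h2
  rw [absNorm_span, absNorm_span, hz] at h3
  have hlm' : 2 * l ≤ r * k := by exact_mod_cast hlm
  exact small_normM hr hk p hl hlm' hlr h7 h3

theorem isDomain_of' {μ R d : ℤ} (hd : d = μ ^ 2 + R) (hsf : Squarefree d) (hd1 : 1 < d) :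
    IsDomain (QA R (2 * μ)) := by
  have hns := not_sq_of_squarefree hsf hd1
  have hn : ∀ z : QA R (2 * μ), QuadraticAlgebra.norm z = 0 → z = 0 := by
    intro z hz
    rw [norm_eq] at hz
    have h1 : (z.re + μ * z.im) ^ 2 = d * z.im ^ 2 := by rw [hd]; linear_combination hz
    have him : z.im = 0 := by
      by_contra h
      apply hns
      refine ⟨(z.re + μ * z.im) / z.im, ?_⟩
      have h' : (z.im : ℚ) ≠ 0 := by exact_mod_cast h
      have h2 : ((z.re : ℚ) + μ * z.im) ^ 2 = d * (z.im : ℚ) ^ 2 := by exact_mod_cast h1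
      field_simp
      linear_combination h2
    have hre : z.re = 0 := by
      rw [him] at h1
      have : (z.re) ^ 2 = 0 := by linear_combination h1
      exact pow_eq_zero_iff (two_ne_zero) |>.mp this
    ext
    · exact hre
    · exact him
  have : Nontrivial (QA R (2 * μ)) := inferInstance
  have : NoZeroDivisors (QA R (2 * μ)) := by
    refine ⟨fun {a b} hab => ?_⟩
    have : QuadraticAlgebra.norm a * QuadraticAlgebra.norm b = 0 := by
      rw [← map_mul, hab]; simp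
    rcases mul_eq_zero.mp this with h | h
    · left; exact hn a h
    · right; exact hn b h
  exact NoZeroDivisors.to_isDomain _

theorem good_P {k : ℕ} (hk : 3 ≤ k) {d : ℕ}
    (hd : (d : ℤ) = (k : ℤ) ^ 2 + 2) (hsf : Squarefree (d : ℤ))
    {K : Type*} [Field K] [NumberField K] (hK : Module.finrank ℚ K = 2) {x : K}
    (hx : x ^ 2 = ((d : ℤ) : K)) (hcl : NumberField.classNumber K = 1) :
    GoodE 2 (k : ℤ) (4 * d) d := by
  have hk' : (3 : ℤ) ≤ k := by exact_mod_cast hk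
  have hd1 : (1 : ℤ) < d := by rw [hd]; nlinarith
  have hmc : ((2 * k : ℕ) : ℤ) = 2 * (k : ℤ) := by push_cast; ring
  have hDm : ((4 * d : ℕ) : ℤ) = ((2 * k : ℕ) : ℤ) ^ 2 + 4 * ((2 : ℕ) : ℤ) := by
    push_cast; rw [hd]; ring
  have hD1 : 1 < 4 * d := by
    have : (1 : ℕ) < d := by exact_mod_cast hd1
    omega
  have hd4 : (d : ℤ) % 4 = 2 ∨ (d : ℤ) % 4 = 3 := by
    rw [hd]
    rcases Int.emod_two_eq_zero_or_one (k : ℤ) with h | h
    · obtain ⟨j, hj⟩ : ∃ j, (k : ℤ) = 2 * j := ⟨k / 2, by omega⟩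
      left; rw [hj]; ring_nf; omega
    · obtain ⟨j, hj⟩ : ∃ j, (k : ℤ) = 2 * j + 1 := ⟨k / 2, by omega⟩
      right; rw [hj]; ring_nf; omega
  have i1 : IsDomain (QA ((2 : ℕ) : ℤ) ((2 * k : ℕ) : ℤ)) := by
    rw [hmc]
    exact isDomain_of' (R := 2) hd hsf hd1
  have i2 : IsPrincipalIdealRing (QA ((2 : ℕ) : ℤ) ((2 * k : ℕ) : ℤ)) := by
    rw [hmc]
    exact pid_of_classNumber_one (R := 2) hd4 ⟨k, rfl, hd⟩ hsf hd1 hK hx hcl
  have hin := inertP (r := 2) (k := k) le_rfl (by omega) hDm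
  have hJ : Chr (4 * d) (kr d) := chr_of rfl Nat.prime_three (by norm_num)
    (hin 3 Nat.prime_three (by norm_num) (by push_cast; linarith) (by norm_num))
  refine ⟨by push_cast; rw [hd]; ring, hD1, ?_, ?_⟩
  · intro q hq hcop f hf
    apply rel_of (by omega)
    have h := mainP (F := fun x => ((f x : ℤ) : ℝ)) (r := 2) (k := k) le_rfl (by omega) hDm hD1
      rfl hJ (by rw [hmc]; omega) (by norm_num) hcop
      (fun x => by rw [hf]; push_cast; ring)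
    rw [h]
    apply SS_congr
    intro x y
    push_cast
    rfl
  · intro l hl hl2 hlm hlr
    exact hin l hl hl2 (by push_cast; linarith) hl2

theorem good_M {k : ℕ} (hk : 4 ≤ k) {d : ℕ}
    (hd : (d : ℤ) = (k : ℤ) ^ 2 - 2) (hsf : Squarefree (d : ℤ))
    {K : Type*} [Field K] [NumberField K] (hK : Module.finrank ℚ K = 2) {x : K}
    (hx : x ^ 2 = ((d : ℤ) : K)) (hcl : NumberField.classNumber K = 1) :
    GoodE (-2) (-(k : ℤ)) (4 * d) d := by
  have hk' : (4 : ℤ) ≤ k := by exact_mod_cast hk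
  have hd1 : (1 : ℤ) < d := by rw [hd]; nlinarith
  have hmc : ((2 * k : ℕ) : ℤ) = 2 * (k : ℤ) := by push_cast; ring
  have hDm : ((4 * d : ℕ) : ℤ) = ((2 * k : ℕ) : ℤ) ^ 2 + 4 * (-((2 : ℕ) : ℤ)) := by
    push_cast; rw [hd]; ring
  have hD1 : 1 < 4 * d := by
    have : (1 : ℕ) < d := by exact_mod_cast hd1
    omega
  have hd4 : (d : ℤ) % 4 = 2 ∨ (d : ℤ) % 4 = 3 := by
    rw [hd]
    rcases Int.emod_two_eq_zero_or_one (k : ℤ) with h | h
    · obtain ⟨j, hj⟩ : ∃ j, (k : ℤ) = 2 * j := ⟨k / 2, by omega⟩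
      left; rw [hj]; ring_nf; omega
    · obtain ⟨j, hj⟩ : ∃ j, (k : ℤ) = 2 * j + 1 := ⟨k / 2, by omega⟩
      right; rw [hj]; ring_nf; omega
  have i1 : IsDomain (QA (-((2 : ℕ) : ℤ)) ((2 * k : ℕ) : ℤ)) := by
    rw [hmc]
    exact isDomain_of' (R := -2) (by rw [hd]; ring) hsf hd1
  have i2 : IsPrincipalIdealRing (QA (-((2 : ℕ) : ℤ)) ((2 * k : ℕ) : ℤ)) := by
    rw [hmc]
    exact pid_of_classNumber_one (R := -2) hd4 ⟨k, rfl, by rw [hd]; ring⟩ hsf hd1 hK hx hcl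
  have hin := inertM (r := 2) (k := k) le_rfl (by omega) (by omega) hDm
  have hJ : Chr (4 * d) (kr d) := chr_of rfl Nat.prime_three (by norm_num)
    (hin 3 Nat.prime_three (by norm_num) (by push_cast; linarith) (by norm_num))
  refine ⟨by push_cast; rw [hd]; ring, hD1, ?_, ?_⟩
  · intro q hq hcop f hf
    apply rel_of (by omega)
    have h := mainM (F := fun x => ((f x : ℤ) : ℝ)) (r := 2) (k := k) le_rfl (by omega) hDm hD1
      rfl hJ (by rw [hmc]; omega) (by norm_num) hcop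
      (fun x => by rw [hf]; push_cast; ring)
    rw [h]
    apply SS_congr
    intro x y
    push_cast
    have e1 : x ^ 2 + -(2 : ZMod q) * -(k : ZMod q) * (x * y) - -(2 : ZMod q) * y ^ 2 =
      x ^ 2 + (2 : ZMod q) * (k : ZMod q) * (x * y) + (2 : ZMod q) * y ^ 2 := by ring
    rw [e1]
    ring
  · intro l hl hl2 hlm hlr
    exact hin l hl hl2 (by push_cast; linarith) hl2

/-- Relation modulo a prime. -/
theorem GoodE.rel_mod {R K : ℤ} {D d : ℕ} (G : GoodE R K D d) {p : ℕ} (hp : p.Prime) (hp2 : p ≠ 2)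
    (hpD : ¬ (p : ℤ) ∣ D) {q : ℕ} [NeZero q] (hcop : q.Coprime D) (χ : ZMod q → ZMod p)
    (hmul : ∀ x y, χ (x * y) = χ x * χ y) (hodd : ∀ x, χ (-x) = -χ x)
    (hB : ∑ a ∈ range q, (a : ZMod p) * χ a = 0) :
    ∑ x : ZMod q, ∑ y : ZMod q, χ (x ^ 2 + (R : ZMod q) * (K : ZMod q) * (x * y)
      - (R : ZMod q) * y ^ 2) * (wt K (R * K) x y : ZMod p) = 0 := by
  have hF := Fact.mk hp
  have h2 : (2 : ZMod p) ≠ 0 := by
    intro h
    have : ((2 : ℕ) : ZMod p) = 0 := by exact_mod_cast h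
    rw [ZMod.natCast_eq_zero_iff] at this
    exact hp2 ((Nat.prime_dvd_prime_iff_eq hp Nat.prime_two).mp this)
  have hD0 : ((D : ℤ) : ZMod p) ≠ 0 := by
    intro h
    exact hpD ((ZMod.intCast_zmod_eq_zero_iff_dvd _ p).mp h)
  have h := G.rel q hcop (fun x => ((χ x).val : ℤ) - ((χ (-x)).val : ℤ)) (fun x => by
    rw [neg_neg]; ring)
  have hf : ∀ x, ((((χ x).val : ℤ) - ((χ (-x)).val : ℤ) : ℤ) : ZMod p) = 2 * χ x := by
    intro x
    push_cast
    rw [ZMod.natCast_zmod_val, ZMod.natCast_zmod_val, hodd]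
    ring
  have h' := congrArg (fun z : ℤ => (z : ZMod p)) h
  rw [Int.cast_mul, Int.cast_mul, Int.cast_sum, Int.cast_sum] at h'
  have hR : ∑ l ∈ range (q * D), ((∑ a ∈ range q, (l : ℤ) * a * kr d l *
      (((χ ((a * l : ℕ))).val : ℤ) - ((χ (-((a * l : ℕ) : ZMod q))).val : ℤ)) : ℤ) : ZMod p) = 0 := by
    apply Finset.sum_eq_zero
    intro l _
    rw [Int.cast_sum]
    have e : ∀ a ∈ range q, (((l : ℤ) * a * kr d l *
      (((χ ((a * l : ℕ))).val : ℤ) - ((χ (-((a * l : ℕ) : ZMod q))).val : ℤ)) : ℤ) : ZMod p) =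
      ((l : ZMod p) * (kr d l : ZMod p) * 2 * χ l) * ((a : ZMod p) * χ a) := by
      intro a _
      rw [Int.cast_mul, hf, Nat.cast_mul, hmul]
      push_cast
      ring
    rw [Finset.sum_congr rfl e, ← Finset.mul_sum, hB, mul_zero]
  rw [hR, mul_zero] at h'
  rcases mul_eq_zero.mp h' with h3 | h3
  · exact absurd h3 hD0
  · have e : ∀ x ∈ (Finset.univ : Finset (ZMod q)), ((∑ y : ZMod q,
        (((χ (x ^ 2 + (R : ZMod q) * (K : ZMod q) * (x * y) - (R : ZMod q) * y ^ 2)).val : ℤ) -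
        ((χ (-(x ^ 2 + (R : ZMod q) * (K : ZMod q) * (x * y) - (R : ZMod q) * y ^ 2))).val : ℤ)) *
        wt K (R * K) x y : ℤ) : ZMod p) =
        2 * ∑ y : ZMod q, χ (x ^ 2 + (R : ZMod q) * (K : ZMod q) * (x * y)
      - (R : ZMod q) * y ^ 2) * (wt K (R * K) x y : ZMod p) := by
      intro x _
      rw [Int.cast_sum, Finset.mul_sum]
      apply Finset.sum_congr rfl
      intro y _
      rw [Int.cast_mul, hf]
      ring
    rw [Finset.sum_congr rfl e, ← Finset.mul_sum] at h3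
    rcases mul_eq_zero.mp h3 with h4 | h4
    · exact absurd h4 h2
    · exact h4

theorem rel_of_goodE {c : CD} (hc : c.OK) {R K : ℤ} {D d : ℕ} (G : GoodE R K D d)
    (hpD : ¬ (c.p : ℤ) ∣ D) (hcop : c.q.Coprime D) : c.Rel R K := by
  intro _
  exact G.rel_mod hc.pp hc.p2 hpD hcop _ (chi_mul hc.mul) (chi_neg hc.q1 hc.mul hc.oth)
    (chi_sum hc.oth)

end Pool.Agent.Q20.BM
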