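import Pool.Agent.Q20.BM.D
import Pool.Agent.Q20.BM.E
import Pool.Agent.H419R2.S2

/-! Conclusion: class number of `ℚ(√(m² ± 2))` exceeds one for `m > 20`. -/

set_option autoImplicit false
set_option maxRecDepth 100000

namespace Pool.Agent.Q20.BM

open H419R2

theorem nodvd_of_inert {l D : ℕ} (h : ¬ IsSquare (((D : ℤ)) : ZMod l)) : ¬ (l : ℤ) ∣ D := by
  intro hd
  apply h
  have : ((D : ℤ) : ZMod l) = 0 := (ZMod.intCast_zmod_eq_zero_iff_dvd _ l).mpr hd
  rw [this]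
  exact ⟨0, by ring⟩

theorem cop_of_inert {l D : ℕ} (hl : l.Prime) (h : ¬ IsSquare (((D : ℤ)) : ZMod l)) :
    l.Coprime D := by
  rw [hl.coprime_iff_not_dvd]
  intro h3
  exact nodvd_of_inert h (by exact_mod_cast h3)

structure Sys2 (R K : ℤ) : Prop where
  i3 : ¬ IsSquare (((R * K) ^ 2 + 4 * R : ℤ) : ZMod 3)
  i7 : ¬ IsSquare (((R * K) ^ 2 + 4 * R : ℤ) : ZMod 7)
  i29 : ¬ IsSquare (((R * K) ^ 2 + 4 * R : ℤ) : ZMod 29)
  i43 : ¬ IsSquare (((R * K) ^ 2 + 4 * R : ℤ) : ZMod 43)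
  r49 : c49_43.OK ∧ c49_43.Rel R K
  r129 : c129_29.OK ∧ c129_29.Rel R K
  r147 : c147_29.OK ∧ c147_29.Rel R K

theorem sys_of {R K : ℤ} {D d : ℕ} (G : GoodE R K D d) (hR : R.natAbs = 2)
    (h : 86 ≤ R * K) : Sys2 R K := by
  have p29 : Nat.Prime 29 := by norm_num
  have p43 : Nat.Prime 43 := by norm_num
  have p7 : Nat.Prime 7 := by norm_num
  have j3 := G.inert 3 Nat.prime_three (by norm_num) (by push_cast; linarith) (by rw [hR]; norm_num)
  have j7 := G.inert 7 p7 (by norm_num) (by push_cast; linarith) (by rw [hR]; norm_num)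
  have j29 := G.inert 29 p29 (by norm_num) (by push_cast; linarith) (by rw [hR]; norm_num)
  have j43 := G.inert 43 p43 (by norm_num) (by push_cast; linarith) (by rw [hR]; norm_num)
  have c3 := cop_of_inert Nat.prime_three j3
  have c7 := cop_of_inert p7 j7
  have c43 := cop_of_inert p43 j43
  have n29 := nodvd_of_inert j29
  have n43 := nodvd_of_inert j43
  refine ⟨by rw [← G.hD]; exact j3, by rw [← G.hD]; exact j7, by rw [← G.hD]; exact j29,
    by rw [← G.hD]; exact j43, ⟨c49_43_ok, rel_of_goodE c49_43_ok G n43 ?_⟩,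
    ⟨c129_29_ok, rel_of_goodE c129_29_ok G n29 ?_⟩, ⟨c147_29_ok, rel_of_goodE c147_29_ok G n29 ?_⟩⟩
  · change Nat.Coprime 49 D
    exact Nat.Coprime.mul_left (m := 7) (n := 7) c7 c7
  · change Nat.Coprime 129 D
    exact Nat.Coprime.mul_left (m := 3) (n := 43) c3 c43
  · change Nat.Coprime 147 D
    exact Nat.Coprime.mul_left (m := 3) (n := 49) c3 (Nat.Coprime.mul_left (m := 7) (n := 7) c7 c7)

theorem noP {K : ℤ} (hs : Sys2 2 K) : False := by
  have H : ∀ st ∈ stepsP, StepHyp 2 K st :=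
    List.forall_mem_cons.mpr ⟨⟨List.forall_mem_nil _, List.forall_mem_nil _, hs.i3⟩,
    List.forall_mem_cons.mpr ⟨⟨List.forall_mem_nil _, List.forall_mem_nil _, hs.i7⟩,
    List.forall_mem_cons.mpr ⟨⟨List.forall_mem_nil _, List.forall_mem_nil _, hs.i7⟩,
    List.forall_mem_cons.mpr ⟨⟨List.forall_mem_cons.mpr ⟨hs.r49, List.forall_mem_nil _⟩,
      List.forall_mem_nil _, hs.i43⟩,
    List.forall_mem_cons.mpr ⟨⟨List.forall_mem_cons.mpr ⟨hs.r129,
      List.forall_mem_cons.mpr ⟨hs.r147, List.forall_mem_nil _⟩⟩,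
      List.forall_mem_nil _, hs.i29⟩,
    List.forall_mem_nil _⟩⟩⟩⟩⟩
  refine runS_sound false 2 stepsP (M := 1) (by decide) runP_ok (R := 2) (K := K) rfl H ?_
  have e1 : res 2 1 = 0 := by decide
  have e2 : res K 1 = 0 := by
    unfold res
    simp
  rw [e1, e2]
  exact List.mem_singleton.mpr rfl

theorem noM {K : ℤ} (hs : Sys2 (-2) K) : False := by
  have H : ∀ st ∈ stepsM, StepHyp (-2) K st :=
    List.forall_mem_cons.mpr ⟨⟨List.forall_mem_nil _, List.forall_mem_nil _, hs.i3⟩,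
    List.forall_mem_cons.mpr ⟨⟨List.forall_mem_nil _, List.forall_mem_nil _, hs.i7⟩,
    List.forall_mem_cons.mpr ⟨⟨List.forall_mem_nil _, List.forall_mem_nil _, hs.i7⟩,
    List.forall_mem_cons.mpr ⟨⟨List.forall_mem_cons.mpr ⟨hs.r49, List.forall_mem_nil _⟩,
      List.forall_mem_nil _, hs.i43⟩,
    List.forall_mem_cons.mpr ⟨⟨List.forall_mem_cons.mpr ⟨hs.r129,
      List.forall_mem_cons.mpr ⟨hs.r147, List.forall_mem_nil _⟩⟩,
      List.forall_mem_nil _, hs.i29⟩,
    List.forall_mem_nil _⟩⟩⟩⟩⟩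
  refine runS_sound true 2 stepsM (M := 1) (by decide) runM_ok (R := -2) (K := K) rfl H ?_
  have e1 : res (-2) 1 = 0 := by decide
  have e2 : res K 1 = 0 := by
    unfold res
    simp
  rw [e1, e2]
  exact List.mem_singleton.mpr rfl

/-- check for the plus sign -/
def smP : Bool :=
  allR 43 (fun k => or (Nat.ble k 15)
      (wit (Nat.mul 4 (Nat.add (Nat.mul k k) 2)) (Nat.mul 2 k) 2))

/-- check for the minus sign -/
def smM : Bool :=
  allR 43 (fun k => or (Nat.ble k 20)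
      (wit (Nat.mul 4 (Nat.sub (Nat.mul k k) 2)) (Nat.mul 2 k) 2))

theorem smP_ok : smP = true := by decide +kernel

theorem smM_ok : smM = true := by decide +kernel

theorem smallP' {k d : ℕ} (G : GoodE 2 (k : ℤ) (4 * d) d) (h1 : 15 < k) (h2 : k < 43) : False := by
  have h := smP_ok
  unfold smP at h
  rw [allR_iff] at h
  have h3 := h k h2
  rw [Bool.or_eq_true] at h3
  rcases h3 with h3 | h3
  · exact ble_false h1 h3
  · obtain ⟨l, hl, hl2, hlm, hlr, hsq⟩ := wit_spec h3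
    apply G.inert l hl hl2 (by exact_mod_cast hlm) (by simpa using hlr)
    have e2 : (((4 * d : ℕ)) : ℤ) = ((Nat.mul 4 (Nat.add (Nat.mul k k) 2) : ℕ) : ℤ) := by
      rw [G.hD]
      change _ = ((4 * (k * k + 2) : ℕ) : ℤ)
      push_cast; ring
    rw [e2, Int.cast_natCast]
    exact hsq

theorem smallM' {k d : ℕ} (G : GoodE (-2) (-(k : ℤ)) (4 * d) d) (h1 : 20 < k) (h2 : k < 43) :
    False := by
  have h := smM_ok
  unfold smM at h
  rw [allR_iff] at h
  have h3 := h k h2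
  rw [Bool.or_eq_true] at h3
  rcases h3 with h3 | h3
  · exact ble_false h1 h3
  · obtain ⟨l, hl, hl2, hlm, hlr, hsq⟩ := wit_spec h3
    apply G.inert l hl hl2 (by
      have : (2 * l : ℤ) ≤ ((Nat.mul 2 k : ℕ) : ℤ) := by exact_mod_cast hlm
      change _ ≤ ((2 * k : ℕ) : ℤ) at this
      push_cast at this
      linarith) (by simpa using hlr)
    have e2 : (((4 * d : ℕ)) : ℤ) = ((Nat.mul 4 (Nat.sub (Nat.mul k k) 2) : ℕ) : ℤ) := by
      rw [G.hD]
      have h5 : 2 ≤ k * k := by nlinarith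
      change _ = ((4 * (k * k - 2) : ℕ) : ℤ)
      push_cast [Nat.cast_sub h5]; ring
    rw [e2, Int.cast_natCast]
    exact hsq

theorem plus_not_one {k : ℕ} (hk : 15 < k) (hsf : Squarefree ((k : ℤ) ^ 2 + 2))
    {K : Type*} [Field K] [NumberField K] (hK : Module.finrank ℚ K = 2) {x : K}
    (hx : x ^ 2 = (((k : ℤ) ^ 2 + 2 : ℤ) : K)) : NumberField.classNumber K ≠ 1 := by
  intro hcl
  obtain ⟨d, hd⟩ : ∃ d : ℕ, (d : ℤ) = (k : ℤ) ^ 2 + 2 := ⟨k ^ 2 + 2, by push_cast; ring⟩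
  have G := good_P (k := k) (by omega) hd (by rw [hd]; exact hsf) hK (x := x)
    (by rw [hd]; exact hx) hcl
  rcases lt_or_ge k 43 with h | h
  · exact smallP' G hk h
  · have : (43 : ℤ) ≤ k := by exact_mod_cast h
    exact noP (sys_of G (by decide) (by linarith))

theorem minus_not_one {k : ℕ} (hk : 20 < k) (hsf : Squarefree ((k : ℤ) ^ 2 - 2))
    {K : Type*} [Field K] [NumberField K] (hK : Module.finrank ℚ K = 2) {x : K}
    (hx : x ^ 2 = (((k : ℤ) ^ 2 - 2 : ℤ) : K)) : NumberField.classNumber K ≠ 1 := by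
  intro hcl
  obtain ⟨d, hd⟩ : ∃ d : ℕ, (d : ℤ) = (k : ℤ) ^ 2 - 2 := by
    refine ⟨k ^ 2 - 2, ?_⟩
    have : 2 ≤ k ^ 2 := by nlinarith
    push_cast [Nat.cast_sub this]; ring
  have G := good_M (k := k) (by omega) hd (by rw [hd]; exact hsf) hK (x := x)
    (by rw [hd]; exact hx) hcl
  rcases lt_or_ge k 43 with h | h
  · exact smallM' G hk h
  · have : (43 : ℤ) ≤ k := by exact_mod_cast h
    exact noM (sys_of G (by decide) (by linarith))

end Pool.Agent.Q20.BM
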