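import Pool.Agent.Q20.BM.F

/-! Class number one for the small radicands, and the radicands `a² + 1`. -/

set_option autoImplicit false

namespace Pool.Agent.Q20.BM

open H419R2 QuadraticAlgebra Module

section field

variable {K : Type*} [Field K] [NumberField K]

theorem exists_equiv {m R d : ℤ} (hd4 : d % 4 = 2 ∨ d % 4 = 3)
    (hm : ∃ μ, m = 2 * μ ∧ d = μ ^ 2 + R)
    (hsf : Squarefree d) (hd1 : 1 < d) (hK : finrank ℚ K = 2) {x : K}
    (hx : x ^ 2 = (d : K)) :
    Nonempty (NumberField.RingOfIntegers K ≃ₐ[ℤ] QA R m) := by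
  obtain ⟨μ, rfl, hdm⟩ := hm
  have hns := not_sq_of_squarefree hsf hd1
  have hx2 : (2 * x) ^ 2 = ((4 * d : ℤ) : K) := by push_cast; linear_combination 4 * hx
  have hDm : 4 * d = (2 * μ) ^ 2 + 4 * R := by rw [hdm]; ring
  have h2 : (2 : K) ≠ 0 := by norm_num
  have hxr : ∀ p q : ℤ, (p : K) + (q : K) * ((((2 * μ : ℤ) : K) + 2 * x) / 2) = 0 →
      p = 0 ∧ q = 0 := by
    intro p q h
    by_cases hq : q = 0
    · subst hq
      simp at h
      exact ⟨h, rfl⟩
    · exfalso
      apply hns
      refine ⟨-(p + q * μ) / q, ?_⟩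
      have hq' : (q : K) ≠ 0 := by exact_mod_cast hq
      have hxe : x = ((-(p + q * μ) / q : ℚ) : K) := by
        push_cast
        rw [eq_div_iff hq']
        push_cast at h
        field_simp at h
        linear_combination h
      have h3 : (((-(p + q * μ) / q) ^ 2 : ℚ) : K) = ((d : ℚ) : K) := by
        push_cast
        rw [hxe] at hx
        push_cast at hx
        exact hx
      exact_mod_cast h3
  let _ : Algebra (QA R (2 * μ)) K := (emb hDm hx2).toRingHom.toAlgebra
  have hmap : ∀ z : QA R (2 * μ), algebraMap (QA R (2 * μ)) K z =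
      (z.re : K) + (z.im : K) * ((((2 * μ : ℤ) : K) + 2 * x) / 2) := fun z => emb_apply hDm hx2 z
  have : IsIntegralClosure (QA R (2 * μ)) ℤ K := by
    refine ⟨?_, ?_⟩
    · intro z w hzw
      rw [hmap, hmap] at hzw
      have := hxr (z.re - w.re) (z.im - w.im) (by push_cast at hzw ⊢; linear_combination hzw)
      ext
      · linarith [this.1]
      · linarith [this.2]
    · intro y
      constructor
      · intro hy
        obtain ⟨u, w, h⟩ := integral_coords hd4 hsf hd1 hK hx hy
        refine ⟨⟨u - w * μ, w⟩, ?_⟩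
        rw [hmap, h]
        push_cast
        field_simp
        ring
      · rintro ⟨z, rfl⟩
        have : IsIntegral ℤ z := by
          refine ⟨Polynomial.X ^ 2 - Polynomial.C (QuadraticAlgebra.trace z) * Polynomial.X
            + Polynomial.C (QuadraticAlgebra.norm z), ?_, ?_⟩
          · monicity!
          · rw [← Polynomial.aeval_def]
            simp only [map_add, map_sub, map_pow, map_mul, Polynomial.aeval_X, Polynomial.aeval_C]
            have := QuadraticAlgebra.sq_sub_trace_smul_add_norm_eq_zero z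
            simpa [Algebra.smul_def] using this
        exact this.map (emb hDm hx2)
  have : IsScalarTower ℤ (QA R (2 * μ)) K := IsScalarTower.of_algebraMap_eq (fun n => by simp)
  exact ⟨IsIntegralClosure.equiv ℤ (NumberField.RingOfIntegers K) K (QA R (2 * μ))⟩

theorem trace_QA {R m : ℤ} (z : QA R m) : Algebra.trace ℤ (QA R m) z = 2 * z.re + m * z.im := by
  rw [Algebra.trace_eq_matrix_trace (QuadraticAlgebra.basis R m)]
  rw [Matrix.trace_fin_two]
  rw [Algebra.leftMulMatrix_eq_repr_mul, Algebra.leftMulMatrix_eq_repr_mul]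
  have b0 : QuadraticAlgebra.basis R m 0 = 1 := by
    apply (QuadraticAlgebra.basis R m).repr.injective
    rw [Basis.repr_self]
    ext i
    fin_cases i <;> simp
  have b1 : QuadraticAlgebra.basis R m 1 = ⟨0, 1⟩ := by
    apply (QuadraticAlgebra.basis R m).repr.injective
    rw [Basis.repr_self]
    ext i
    fin_cases i <;> simp
  rw [b0, b1]
  simp
  ring

theorem discr_QA {D : ℤ} : Algebra.discr ℤ (QuadraticAlgebra.basis D (0 : ℤ)) = 4 * D := by
  have b0 : QuadraticAlgebra.basis D (0 : ℤ) 0 = 1 := by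
    apply (QuadraticAlgebra.basis D (0 : ℤ)).repr.injective
    rw [Basis.repr_self]
    ext i
    fin_cases i <;> simp
  have b1 : QuadraticAlgebra.basis D (0 : ℤ) 1 = ⟨0, 1⟩ := by
    apply (QuadraticAlgebra.basis D (0 : ℤ)).repr.injective
    rw [Basis.repr_self]
    ext i
    fin_cases i <;> simp
  rw [Algebra.discr_def, Matrix.det_fin_two]
  simp only [Algebra.traceMatrix_apply, Algebra.traceForm_apply, b0, b1]
  have := @trace_QA D 0
  simp only [QA] at this
  rw [this, this, this, this]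
  simp
  ring

theorem exists_root {p : ℕ} (hp : p.Prime) (x : NumberField.RingOfIntegers K) {D : ℤ}
    (hx : x ^ 2 = (D : NumberField.RingOfIntegers K)) (P : Ideal (NumberField.RingOfIntegers K))
    (hP : Ideal.absNorm P = p) :
    ∃ r : ℤ, (p : ℤ) ∣ r ^ 2 - D ∧ (r : NumberField.RingOfIntegers K) + x ∈ P := by
  have hF := Fact.mk hp
  have hc : Nat.card (NumberField.RingOfIntegers K ⧸ P) = p := by
    rw [← hP, Ideal.absNorm_apply]; rfl
  have hfin : Finite (NumberField.RingOfIntegers K ⧸ P) :=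
    Nat.finite_of_card_ne_zero (by rw [hc]; exact hp.ne_zero)
  have := Fintype.ofFinite (NumberField.RingOfIntegers K ⧸ P)
  let e := ZMod.ringEquivOfPrime (NumberField.RingOfIntegers K ⧸ P) hp
    (by rw [← Nat.card_eq_fintype_card]; exact hc)
  obtain ⟨t, ht⟩ := e.surjective (Ideal.Quotient.mk P x)
  have ht2 : ((t.val : ℤ) : ZMod p) = t := by simp
  have h1 : t ^ 2 = (D : ZMod p) := by
    apply e.injective
    rw [map_pow, ht, ← map_pow, hx, map_intCast, map_intCast]
  refine ⟨-(t.val : ℤ), ?_, ?_⟩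
  · rw [← ZMod.intCast_zmod_eq_zero_iff_dvd]
    push_cast
    simp [h1]
  · rw [← Ideal.Quotient.eq_zero_iff_mem, map_add, ← ht, map_intCast]
    have : ((-(t.val : ℤ) : ℤ) : NumberField.RingOfIntegers K ⧸ P) =
        e (((-(t.val : ℤ) : ℤ)) : ZMod p) := by rw [map_intCast]
    rw [this, ← map_add]
    push_cast
    simp

theorem eq_of_le_norm {P : Ideal (NumberField.RingOfIntegers K)} {z : NumberField.RingOfIntegers K}
    (hz : z ∈ P) (hn : (Algebra.norm ℤ z).natAbs = Ideal.absNorm P) (h0 : Ideal.absNorm P ≠ 0) :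
    P = Ideal.span {z} := by
  have h1 : P ∣ Ideal.span {z} := by
    rw [Ideal.dvd_iff_le, Ideal.span_singleton_le_iff_mem]; exact hz
  obtain ⟨J, hJ⟩ := h1
  have h2 := congrArg Ideal.absNorm hJ
  rw [map_mul, Ideal.absNorm_span_singleton, hn] at h2
  have h3 : Ideal.absNorm J = 1 :=
    Nat.eq_of_mul_eq_mul_left (Nat.pos_of_ne_zero h0) (by rw [← h2]; ring)
  rw [Ideal.absNorm_eq_one_iff] at h3
  rw [hJ, h3, Ideal.mul_top]

omit [NumberField K] in
theorem mem_prime {P : Ideal (NumberField.RingOfIntegers K)} (hP : P.IsPrime) (n : ℕ) (hn : n ≠ 0)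
    (h : (n : NumberField.RingOfIntegers K) ∈ P) :
    ∃ p : ℕ, p.Prime ∧ (p : NumberField.RingOfIntegers K) ∈ P := by
  induction n using Nat.strong_induction_on with
  | _ n ih =>
    by_cases h1 : n = 1
    · exfalso
      apply hP.ne_top
      rw [Ideal.eq_top_iff_one]
      simpa [h1] using h
    · have hp := Nat.minFac_prime h1
      obtain ⟨k, hk⟩ := Nat.minFac_dvd n
      rw [hk] at h
      push_cast at h
      rcases hP.mem_or_mem h with h2 | h2
      · exact ⟨_, hp, h2⟩
      · have hk0 : k ≠ 0 := by rintro rfl; simp at hk; exact hn hk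
        refine ih k ?_ hk0 h2
        have := hp.two_le
        rw [hk]
        have : k < 2 * k := by omega
        calc k < 2 * k := this
          _ ≤ n.minFac * k := Nat.mul_le_mul_right _ hp.two_le

theorem class_one {D : ℕ} (hd4 : (D : ℤ) % 4 = 2 ∨ (D : ℤ) % 4 = 3) (hsf : Squarefree (D : ℤ))
    (hd1 : (1 : ℤ) < D) (hK : finrank ℚ K = 2) {x : K} (hx : x ^ 2 = ((D : ℤ) : K)) (B : ℕ)
    (hB : 16 * (D : ℝ) < (3.14 * (B + 1)) ^ 2)
    (hch : ∀ p : ℕ, p.Prime → p ≤ B → ∀ r : ℤ, (p : ℤ) ∣ r ^ 2 - D →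
      ∃ a : ℤ, (a ^ 2 - D).natAbs = p) : NumberField.classNumber K = 1 := by
  obtain ⟨e⟩ := exists_equiv (m := 0) (R := (D : ℤ)) hd4 ⟨0, by ring, by ring⟩ hsf hd1 hK hx
  rw [NumberField.classNumber_eq_one_iff]
  have hdisc : NumberField.discr K = 4 * D := by
    rw [← discr_QA (D := (D : ℤ)), ← NumberField.discr_eq_discr K
      ((QuadraticAlgebra.basis (D : ℤ) (0 : ℤ)).map e.symm.toLinearEquiv)]
    rw [Algebra.discr_eq_discr_of_algEquiv _ e]
    congr 1
    funext i
    simp
  have hM : (4 / Real.pi) ^ NumberField.InfinitePlace.nrComplexPlaces K *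
      ((Nat.factorial (finrank ℚ K)) / (finrank ℚ K) ^ (finrank ℚ K) *
        √|NumberField.discr K|) < (B : ℝ) + 1 := by
    rw [hK, hdisc]
    have hr := NumberField.InfinitePlace.card_add_two_mul_card_eq_rank K
    rw [hK] at hr
    have hr2 : NumberField.InfinitePlace.nrComplexPlaces K ≤ 1 := by omega
    have hpi := Real.pi_gt_d2
    have hpi4 := Real.pi_le_four
    have hpos := Real.pi_pos
    have h1 : (4 / Real.pi) ^ NumberField.InfinitePlace.nrComplexPlaces K ≤ 4 / Real.pi := by
      calc (4 / Real.pi) ^ NumberField.InfinitePlace.nrComplexPlaces K ≤ (4 / Real.pi) ^ 1 := by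
            apply pow_le_pow_right₀ _ hr2
            rw [le_div_iff₀ hpos]; linarith
        _ = 4 / Real.pi := pow_one _
    have h2 : √|((4 * (D : ℤ) : ℤ) : ℝ)| = 2 * √(D : ℝ) := by
      rw [abs_of_nonneg (by positivity)]
      push_cast
      rw [Real.sqrt_mul (by norm_num)]
      congr 1
      rw [show (4 : ℝ) = 2 ^ 2 by norm_num, Real.sqrt_sq (by norm_num)]
    have h3 : 4 * √(D : ℝ) < 3.14 * (B + 1) := by
      have h4 : (4 * √(D : ℝ)) ^ 2 < (3.14 * (B + 1)) ^ 2 := by
        rw [mul_pow, Real.sq_sqrt (by positivity)]; linarith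
      exact lt_of_pow_lt_pow_left₀ 2 (by positivity) h4
    rw [h2]
    have h5 : (0 : ℝ) ≤ √(D : ℝ) := Real.sqrt_nonneg _
    calc (4 / Real.pi) ^ NumberField.InfinitePlace.nrComplexPlaces K *
      ((Nat.factorial 2) / (2 : ℕ) ^ 2 * (2 * √(D : ℝ))) ≤ (4 / Real.pi) *
      ((Nat.factorial 2) / (2 : ℕ) ^ 2 * (2 * √(D : ℝ))) := by
          apply mul_le_mul_of_nonneg_right h1; positivity
      _ = 4 * √(D : ℝ) / Real.pi := by norm_num [Nat.factorial]; ring
      _ < B + 1 := by
          rw [div_lt_iff₀ hpos]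
          have : (3.14 : ℝ) * (B + 1) ≤ (B + 1) * Real.pi := by nlinarith
          linarith
  let w₀ : NumberField.RingOfIntegers K := e.symm ⟨0, 1⟩
  have hw₀ : w₀ ^ 2 = ((D : ℤ) : NumberField.RingOfIntegers K) := by
    apply e.injective
    rw [map_pow, map_intCast]
    change (e (e.symm ⟨0, 1⟩)) ^ 2 = _
    rw [AlgEquiv.apply_symm_apply]
    ext <;> simp [pow_two]
  have hnorm : ∀ a : ℤ, Algebra.norm ℤ ((a : NumberField.RingOfIntegers K) + w₀) = a ^ 2 - D := by
    intro a
    have h1 : ((a : NumberField.RingOfIntegers K) + w₀) = e.symm ⟨a, 1⟩ := by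
      apply e.injective
      rw [map_add, map_intCast]
      change _ + (e (e.symm ⟨0, 1⟩)) = _
      rw [AlgEquiv.apply_symm_apply, AlgEquiv.apply_symm_apply]
      ext <;> simp
    rw [h1, Algebra.norm_eq_of_algEquiv]
    rw [algebra_norm_eq, norm_eq]
    ring
  apply RingOfIntegers.isPrincipalIdealRing_of_isPrincipal_of_norm_le_of_isPrime
  intro I hI hIM
  obtain ⟨P, hP0⟩ := I
  simp only at hI hIM ⊢
  have hNB : Ideal.absNorm P ≤ B := by
    have : (Ideal.absNorm P : ℝ) < B + 1 := lt_of_le_of_lt hIM hM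
    have : Ideal.absNorm P < B + 1 := by exact_mod_cast this
    omega
  have hN0 : Ideal.absNorm P ≠ 0 := by
    have := Ideal.absNorm_ne_zero_of_nonZeroDivisors (⟨P, hP0⟩ : (nonZeroDivisors (Ideal (NumberField.RingOfIntegers K))))
    exact this
  obtain ⟨p, hp, hpP⟩ := mem_prime hI _ hN0 (Ideal.absNorm_mem P)
  have hnp : Algebra.norm ℤ ((p : NumberField.RingOfIntegers K)) = (p : ℤ) ^ 2 := by
    have h1 : (p : NumberField.RingOfIntegers K) = e.symm (p : QA (D : ℤ) 0) := by
      rw [map_natCast]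
    rw [h1, Algebra.norm_eq_of_algEquiv, algebra_norm_eq, norm_natCast']
  have hdv : Ideal.absNorm P ∣ p ^ 2 := by
    have h1 := Ideal.absNorm_dvd_absNorm_of_le
      ((Ideal.span_singleton_le_iff_mem P).mpr hpP)
    rw [Ideal.absNorm_span_singleton, hnp] at h1
    simpa [Int.natAbs_pow] using h1
  rw [Nat.dvd_prime_pow hp] at hdv
  obtain ⟨f, hf, hf2⟩ := hdv
  interval_cases f
  · exfalso
    rw [pow_zero, Ideal.absNorm_eq_one_iff] at hf2
    exact hI.ne_top hf2
  · rw [pow_one] at hf2
    obtain ⟨r, hr, hrP⟩ := exists_root hp w₀ hw₀ P hf2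
    obtain ⟨a, ha⟩ := hch p hp (by omega) r hr
    have h2 : (p : ℤ) ∣ (a - r) * (a + r) := by
      have h3 : (p : ℤ) ∣ a ^ 2 - D := by
        rw [← ha]; exact Int.natAbs_dvd.mpr (dvd_refl _)
      have : (a - r) * (a + r) = (a ^ 2 - D) - (r ^ 2 - D) := by ring
      rw [this]
      exact dvd_sub h3 hr
    have hmul : ∀ c : ℤ, (p : ℤ) ∣ c → (c : NumberField.RingOfIntegers K) ∈ P := by
      rintro c ⟨k, rfl⟩
      push_cast
      exact P.mul_mem_right _ hpP
    rcases (Nat.prime_iff_prime_int.mp hp).dvd_or_dvd h2 with h3 | h3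
    · have h4 : (a : NumberField.RingOfIntegers K) + w₀ ∈ P := by
        have := P.add_mem hrP (hmul _ h3)
        have e1 : (r : NumberField.RingOfIntegers K) + w₀ + ((a - r : ℤ) : NumberField.RingOfIntegers K)
          = a + w₀ := by push_cast; ring
        rwa [e1] at this
      have := eq_of_le_norm h4 (by rw [hnorm, ha, hf2]) hN0
      exact ⟨_, this⟩
    · have h4 : ((-a : ℤ) : NumberField.RingOfIntegers K) + w₀ ∈ P := by
        have := P.sub_mem hrP (hmul _ h3)
        have e1 : (r : NumberField.RingOfIntegers K) + w₀ - ((a + r : ℤ) : NumberField.RingOfIntegers K)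
          = ((-a : ℤ) : NumberField.RingOfIntegers K) + w₀ := by push_cast; ring
        rwa [e1] at this
      have := eq_of_le_norm h4 (by rw [hnorm, neg_sq, ha, hf2]) hN0
      exact ⟨_, this⟩
  · have := eq_of_le_norm hpP (by rw [hnp, hf2]; simp [Int.natAbs_pow]) hN0
    exact ⟨_, this⟩

end field

end Pool.Agent.Q20.BM
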