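import Pool.Agent.Q20.BM.G

/-! Radicands `a² + 1` and `a² + 2`: the class number one cases. -/

set_option autoImplicit false

namespace Pool.Agent.Q20.BM

open H419R2 QuadraticAlgebra Module

/-- `±2` is not represented by `x² - (a² + 1) y²` if `a ≥ 2`. -/
theorem no_two {a : ℤ} (ha : 2 ≤ a) : ∀ (n : ℕ) (x y : ℤ), y.natAbs = n →
    (x ^ 2 - (a ^ 2 + 1) * y ^ 2).natAbs ≠ 2 := by
  intro n
  induction n using Nat.strong_induction_on with
  | _ n ih =>
    intro x y hy h
    wlog hx0 : 0 ≤ x generalizing x with H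
    · exact H (-x) (by rw [neg_sq]; exact h) (by omega)
    wlog hy0 : 0 ≤ y generalizing y with H
    · exact H (-y) (by rw [Int.natAbs_neg]; exact hy) (by rw [neg_sq]; exact h) (by omega)
    have h2 : x ^ 2 - (a ^ 2 + 1) * y ^ 2 = 2 ∨ x ^ 2 - (a ^ 2 + 1) * y ^ 2 = -2 := by omega
    have hsq2 : ∀ z : ℤ, z ^ 2 ≠ 2 ∧ z ^ 2 ≠ -2 := by
      intro z
      constructor
      · intro hz
        have h1 : z.natAbs ^ 2 = 2 := by zify; rw [sq_abs]; exact hz
        have h3 : z.natAbs < 2 := by nlinarith
        interval_cases z.natAbs <;> omega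
      · intro hz
        nlinarith [sq_nonneg z]
    rcases eq_or_lt_of_le hy0 with hy1 | hy1
    · rw [← hy1] at h2
      have := hsq2 x
      rcases h2 with h2 | h2
      · exact this.1 (by linarith)
      · exact this.2 (by linarith)
    · rcases eq_or_lt_of_le (show (1 : ℤ) ≤ y by omega) with hy2 | hy2
      · -- y = 1
        rw [← hy2] at h2
        rcases h2 with h2 | h2
        · have h3 : x ^ 2 = a ^ 2 + 3 := by linarith
          have h4 : a < x := by nlinarith
          nlinarith
        · have h3 : x ^ 2 = a ^ 2 - 1 := by linarith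
          have h4 : x < a := by nlinarith
          nlinarith
      · -- descent
        have h3 : (x - a * y) * (x + a * y) = y ^ 2 + 2 ∨ (x - a * y) * (x + a * y) = y ^ 2 - 2 := by
          rcases h2 with h2 | h2
          · left; linarith
          · right; linarith
        have hay : 0 < a * y := by positivity
        have h4 : 0 < x - a * y := by
          by_contra hc
          push Not at hc
          have : (x - a * y) * (x + a * y) ≤ 0 :=
            mul_nonpos_of_nonpos_of_nonneg hc (by linarith)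
          rcases h3 with h3 | h3 <;> nlinarith
        have h5 : x - a * y < y := by
          by_contra hc
          push Not at hc
          have h6 : y * (2 * (a * y)) ≤ (x - a * y) * (x + a * y) := by
            apply mul_le_mul hc (by linarith) (by positivity) (by linarith)
          have h7 : 4 * y ^ 2 ≤ y * (2 * (a * y)) := by nlinarith
          rcases h3 with h3 | h3 <;> nlinarith
        refine ih (x - a * y).natAbs (by omega) ((a ^ 2 + 1) * y - a * x) (x - a * y) rfl ?_
        have e : ((a ^ 2 + 1) * y - a * x) ^ 2 - (a ^ 2 + 1) * (x - a * y) ^ 2 =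
          -(x ^ 2 - (a ^ 2 + 1) * y ^ 2) := by ring
        rw [e, Int.natAbs_neg]
        exact h

theorem plus_one_not_one {a : ℕ} (ha : 2 ≤ a) (hodd : a % 2 = 1)
    (hsf : Squarefree ((a : ℤ) ^ 2 + 1))
    {K : Type*} [Field K] [NumberField K] (hK : Module.finrank ℚ K = 2) {x : K}
    (hx : x ^ 2 = (((a : ℤ) ^ 2 + 1 : ℤ) : K)) : NumberField.classNumber K ≠ 1 := by
  intro hcl
  have ha' : (2 : ℤ) ≤ a := by exact_mod_cast ha
  have hd1 : (1 : ℤ) < (a : ℤ) ^ 2 + 1 := by nlinarith
  have hd4 : ((a : ℤ) ^ 2 + 1) % 4 = 2 ∨ ((a : ℤ) ^ 2 + 1) % 4 = 3 := by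
    left
    obtain ⟨j, hj⟩ : ∃ j, (a : ℤ) = 2 * j + 1 := ⟨a / 2, by omega⟩
    rw [hj]; ring_nf; omega
  have i1 : IsDomain (QA 1 (2 * (a : ℤ))) := isDomain_of' (R := 1) rfl hsf hd1
  have i2 : IsPrincipalIdealRing (QA 1 (2 * (a : ℤ))) :=
    pid_of_classNumber_one (R := 1) hd4 ⟨a, rfl, rfl⟩ hsf hd1 hK hx hcl
  obtain ⟨z, hz⟩ := exists_norm_prime (R := 1) (m := 2 * (a : ℤ)) Nat.prime_two (w0 := 1)
    ⟨a, by push_cast; ring⟩
  rw [norm_eq] at hz
  apply no_two ha' z.im.natAbs (z.re + a * z.im) z.im rfl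
  have e : (z.re + a * z.im) ^ 2 - ((a : ℤ) ^ 2 + 1) * z.im ^ 2 =
    z.re ^ 2 + 2 * (a : ℤ) * z.re * z.im - 1 * z.im ^ 2 := by ring
  rw [e]
  exact hz

/-- check for the plus sign -/
def smP0 : Bool :=
  allR 16 (fun k => or (Nat.ble k 3) (or (Nat.beq k 6) (or (Nat.beq k 9) (or (Nat.beq k 15)
      (wit (Nat.mul 4 (Nat.add (Nat.mul k k) 2)) (Nat.mul 2 k) 2)))))

theorem smP0_ok : smP0 = true := by decide +kernel

theorem smallP0 {k d : ℕ} (G : GoodE 2 (k : ℤ) (4 * d) d) (h1 : 3 < k) (h2 : k < 16)
    (h6 : k ≠ 6) (h9 : k ≠ 9) (h15 : k ≠ 15) : False := by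
  have h := smP0_ok
  unfold smP0 at h
  rw [allR_iff] at h
  have h3 := h k h2
  simp only [Bool.or_eq_true] at h3
  rcases h3 with h3 | h3 | h3 | h3 | h3
  · exact ble_false h1 h3
  · exact h6 (Nat.eq_of_beq_eq_true h3)
  · exact h9 (Nat.eq_of_beq_eq_true h3)
  · exact h15 (Nat.eq_of_beq_eq_true h3)
  · obtain ⟨l, hl, hl2, hlm, hlr, hsq⟩ := wit_spec h3
    apply G.inert l hl hl2 (by exact_mod_cast hlm) (by simpa using hlr)
    have e2 : (((4 * d : ℕ)) : ℤ) = ((Nat.mul 4 (Nat.add (Nat.mul k k) 2) : ℕ) : ℤ) := by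
      rw [G.hD]
      change _ = ((4 * (k * k + 2) : ℕ) : ℤ)
      push_cast; ring
    rw [e2, Int.cast_natCast]
    exact hsq

/-- class number one forces `k ∈ {0, 1, 2, 3, 6, 9, 15}` for the radicand `k² + 2`. -/
theorem plus_two_list {k : ℕ} (hsf : Squarefree ((k : ℤ) ^ 2 + 2))
    {K : Type*} [Field K] [NumberField K] (hK : Module.finrank ℚ K = 2) {x : K}
    (hx : x ^ 2 = (((k : ℤ) ^ 2 + 2 : ℤ) : K)) (hcl : NumberField.classNumber K = 1) :
    k ≤ 3 ∨ k = 6 ∨ k = 9 ∨ k = 15 := by
  by_contra hc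
  push Not at hc
  obtain ⟨h3, h6, h9, h15⟩ := hc
  rcases lt_or_ge k 16 with h | h
  · obtain ⟨d, hd⟩ : ∃ d : ℕ, (d : ℤ) = (k : ℤ) ^ 2 + 2 := ⟨k ^ 2 + 2, by push_cast; ring⟩
    have G := good_P (k := k) (by omega) hd (by rw [hd]; exact hsf) hK (x := x)
      (by rw [hd]; exact hx) hcl
    exact smallP0 G h3 h h6 h9 h15
  · exact plus_not_one (by omega) hsf hK hx hcl

/-- root check -/
theorem class_one' {K : Type*} [Field K] [NumberField K] {D : ℕ}
    (hd4 : (D : ℤ) % 4 = 2 ∨ (D : ℤ) % 4 = 3) (hsf : Squarefree (D : ℤ))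
    (hd1 : (1 : ℤ) < D) (hK : finrank ℚ K = 2) {x : K} (hx : x ^ 2 = ((D : ℤ) : K)) (B : ℕ)
    (hB : 16 * (D : ℝ) < (3.14 * (B + 1)) ^ 2)
    (hch : ∀ p : ℕ, p.Prime → p ≤ B → (∃ r : ℕ, r < p ∧ (r * r) % p = D % p) →
      ∃ a : ℤ, (a ^ 2 - D).natAbs = p) : NumberField.classNumber K = 1 := by
  refine class_one hd4 hsf hd1 hK hx B hB ?_
  intro p hp hpB r hr
  apply hch p hp hpB
  have hp0 : (0 : ℤ) < p := by exact_mod_cast hp.pos
  refine ⟨(r % p).toNat, ?_, ?_⟩
  · have h1 := Int.emod_lt_of_pos r hp0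
    have h2 := Int.emod_nonneg r hp0.ne'
    omega
  · have h2 := Int.emod_nonneg r hp0.ne'
    zify
    rw [Int.toNat_of_nonneg h2, ← Int.mul_emod, ← Int.emod_emod_of_dvd _ (dvd_refl (p : ℤ))]
    rw [Int.emod_emod_of_dvd _ (dvd_refl _)]
    apply Int.emod_emod_of_dvd _ (dvd_refl _) |>.symm.trans _ |>.trans (Int.emod_emod_of_dvd _ (dvd_refl _))
    rw [Int.emod_emod_of_dvd _ (dvd_refl _), Int.emod_emod_of_dvd _ (dvd_refl _)]
    apply Int.ModEq.symm
    rw [Int.modEq_iff_dvd]
    rw [← pow_two]
    exact hr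

theorem listed {K : Type*} [Field K] [NumberField K] {D : ℕ}
    (hsf : Squarefree D) (hK : finrank ℚ K = 2) {x : K} (hx : x ^ 2 = ((D : ℤ) : K))
    (h : D ∈ ({2, 3, 6, 11, 38, 83, 227} : Finset ℕ)) : NumberField.classNumber K = 1 := by
  have sf : ∀ n : ℕ, Squarefree n → Squarefree (n : ℤ) := fun n hn =>
    Int.squarefree_natCast.mpr hn
  simp only [Finset.mem_insert, Finset.mem_singleton] at h
  rcases h with rfl | rfl | rfl | rfl | rfl | rfl | rfl
  · refine class_one' (by decide) (sf _ hsf) (by norm_num) hK hx 1 (by norm_num) ?_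
    intro p hp hpB
    exfalso
    have := hp.two_le
    omega
  · refine class_one' (by decide) (sf _ hsf) (by norm_num) hK hx 2 (by norm_num) ?_
    intro p hp hpB _
    have := hp.two_le
    have : p = 2 := by omega
    subst this
    exact ⟨1, by decide⟩
  · refine class_one' (by decide) (sf _ hsf) (by norm_num) hK hx 3 (by norm_num) ?_
    intro p hp hpB _
    have := hp.two_le
    interval_cases p
    · exact ⟨2, by decide⟩
    · exact ⟨3, by decide⟩
  · refine class_one' (by decide) (sf _ hsf) (by norm_num) hK hx 4 (by norm_num) ?_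
    rintro p hp hpB ⟨r, hr, hr2⟩
    have := hp.two_le
    interval_cases p
    · exact ⟨3, by decide⟩
    · exfalso; revert hr2; revert hr; revert r; decide
    · exact absurd hp (by decide)
  · refine class_one' (by decide) (sf _ hsf) (by norm_num) hK hx 7 (by norm_num) ?_
    rintro p hp hpB ⟨r, hr, hr2⟩
    have := hp.two_le
    interval_cases p
    · exact ⟨6, by decide⟩
    · exfalso; revert hr2; revert hr; revert r; decide
    · exact absurd hp (by decide)
    · exfalso; revert hr2; revert hr; revert r; decide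
    · exact absurd hp (by decide)
    · exfalso; revert hr2; revert hr; revert r; decide
  · refine class_one' (by decide) (sf _ hsf) (by norm_num) hK hx 11 (by norm_num) ?_
    rintro p hp hpB ⟨r, hr, hr2⟩
    have := hp.two_le
    interval_cases p
    · exact ⟨9, by decide⟩
    · exfalso; revert hr2; revert hr; revert r; decide
    · exact absurd hp (by decide)
    · exfalso; revert hr2; revert hr; revert r; decide
    · exact absurd hp (by decide)
    · exfalso; revert hr2; revert hr; revert r; decide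
    · exact absurd hp (by decide)
    · exact absurd hp (by decide)
    · exact absurd hp (by decide)
    · exfalso; revert hr2; revert hr; revert r; decide
  · refine class_one' (by decide) (sf _ hsf) (by norm_num) hK hx 19 (by norm_num) ?_
    rintro p hp hpB ⟨r, hr, hr2⟩
    have := hp.two_le
    interval_cases p
    · exact ⟨15, by decide⟩
    · exfalso; revert hr2; revert hr; revert r; decide
    · exact absurd hp (by decide)
    · exfalso; revert hr2; revert hr; revert r; decide
    · exact absurd hp (by decide)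
    · exfalso; revert hr2; revert hr; revert r; decide
    · exact absurd hp (by decide)
    · exact absurd hp (by decide)
    · exact absurd hp (by decide)
    · exfalso; revert hr2; revert hr; revert r; decide
    · exact absurd hp (by decide)
    · exfalso; revert hr2; revert hr; revert r; decide
    · exact absurd hp (by decide)
    · exact absurd hp (by decide)
    · exact absurd hp (by decide)
    · exfalso; revert hr2; revert hr; revert r; decide
    · exact absurd hp (by decide)
    · exfalso; revert hr2; revert hr; revert r; decide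

end Pool.Agent.Q20.BM
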